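import Pool.Agent.Helper17.DF.Geo
import Pool.Agent.Helper75.DF.Adj
import Pool.Agent.Helper29.DF.NotBoth
import Pool.Agent.Helper25.DG.Mirror
import Pool.Agent.Helper75.DF.FarHub

set_option autoImplicit false

/-!
# DG-7b: the main local theorem
-/

namespace Pool.Agent.Helper17.CT

open Function

section

variable {D : Type} [Finite D] {M : CMap D}

theorem far_false (hG : ∀ p ∈ bra, Good p.1 p.2) (hA : NoA) (hp : M.Planar) (γ : D → Fin 3)
    (hT : M.Tri γ) (h4 : M.Cyc4) (hD : 12 < Nat.card D) (e : D) (he : minimalPeriod M.f e ≤ 5)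
    (hF : Far M e) : False := by
  have hN : Nice M := Nice.of hp γ hT h4
  have hge : ∀ x, 4 ≤ minimalPeriod M.f x := fun x => face_ge M hN.con h4 hD x
  obtain ⟨h5, h6, hn2⟩ := far_hub hG hp γ hT h4 hD e he hF 2 le_rfl (hge e)
  obtain ⟨_, h6', hn3⟩ := far_hub hG hp γ hT h4 hD e he hF 3 (by omega) (by omega)
  have hf5 : (M.f)^[5] e = e := by
    rw [← h5]
    exact iterate_minimalPeriod
  have p4 : minimalPeriod M.f (M.a ((M.f)^[4] e)) = 6 := by
    have h1 := nbr_last (M := M) (y := (M.f)^[3] e) (c := 5) h6'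
    have h2 := hn3 5 (by omega) (by omega)
    rw [← h1] at h2
    have h3 := period_shift M (M.a ((M.f)^[4] e)) 1
    rw [← h3]
    exact h2
  have p1 : minimalPeriod M.f (M.a ((M.f)^[1] e)) = 6 := by
    have h1 := nbr_one (M := M) (y := (M.f)^[2] e) (z := (M.f)^[1] e) rfl
    have h2 := hn2 1 (by omega) (by omega)
    rw [← h1]
    have h3 := period_shift M (M.a (M.f (M.a ((M.f)^[2] e)))) 1
    exact h3.trans h2
  -- the first configuration
  obtain ⟨i, hi, x, hx1, hx2⟩ : ∃ i, (i = 2 ∨ i = 3) ∧ ∃ x,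
      M.Face (M.a ((M.f)^[i] (M.a ((M.f)^[2] e)))) x ∧
      M.Face (M.a ((M.f)^[4] e)) (M.a x) := by
    by_contra hcon
    push Not at hcon
    refine hA D M γ hp hT h4 (M.a ((M.f)^[2] e)) h6 ?_ hn2 ?_ ?_
    · rw [M.a2, period_shift, h5]
    · rw [M.a2]
      exact p4
    · intro i hi x hx
      rw [M.a2]
      exact hcon i hi x hx
  -- the second configuration
  have hit : ∀ i, i ≤ 6 → (M.mirror.f)^[i] ((M.f)^[3] e) =
      M.a ((M.f)^[6 - i] (M.a ((M.f)^[3] e))) := by
    intro i hi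
    have h1 := mirror_iter (M := M) ((M.f)^[3] e) i (by rw [h6']; exact hi)
    rw [h6'] at h1
    exact h1
  have hq : (M.mirror.f)^[2] (M.a ((M.f)^[3] e)) = M.a ((M.f)^[1] e) := by
    have h0 : minimalPeriod M.f (M.a (M.a ((M.f)^[3] e))) = 5 := by
      rw [M.a2, period_shift, h5]
    have h1 := mirror_iter (M := M) (M.a ((M.f)^[3] e)) 2 (by rw [h0]; omega)
    rw [h0, M.a2] at h1
    rw [h1]
    congr 1
    have h2 : (M.f)^[5 - 2] ((M.f)^[3] e) = (M.f)^[1] ((M.f)^[5] e) := by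
      rw [← iterate_add_apply, ← iterate_add_apply]
    rw [h2, hf5]
  obtain ⟨i', hi', x', hx1', hx2'⟩ : ∃ i, (i = 2 ∨ i = 3) ∧ ∃ x,
      M.Face (M.a ((M.f)^[6 - i] (M.a ((M.f)^[3] e)))) (M.a x) ∧
      M.Face (M.a ((M.f)^[1] e)) x := by
    by_contra hcon
    push Not at hcon
    refine hA D M.mirror γ (mirror_planar hp) (mirror_tri γ hT) (mirror_cyc4 h4)
      ((M.f)^[3] e) ?_ ?_ ?_ ?_ ?_
    · rw [mirror_period]
      exact h6'
    · rw [mirror_period]
      show minimalPeriod M.f (M.a (M.a ((M.f)^[3] e))) = 5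
      rw [M.a2, period_shift, h5]
    · intro i h1 h2
      rw [mirror_period, hit i (by omega)]
      show minimalPeriod M.f (M.a (M.a (M.a ((M.f)^[6 - i] (M.a ((M.f)^[3] e)))))) = 6
      rw [M.a2]
      exact hn3 (6 - i) (by omega) (by omega)
    · rw [mirror_period]
      show minimalPeriod M.f (M.a (M.a ((M.mirror.f)^[2] (M.a ((M.f)^[3] e))))) = 6
      rw [M.a2, hq]
      exact p1
    · intro i hi x hx1 hx2
      have hi6 : i ≤ 6 := by omega
      rw [mirror_face, hit i hi6] at hx1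
      rw [mirror_face] at hx2
      have e1 : M.a (M.mirror.a (M.a ((M.f)^[6 - i] (M.a ((M.f)^[3] e))))) =
          M.a ((M.f)^[6 - i] (M.a ((M.f)^[3] e))) := M.a2 _
      have e2 : M.a (M.mirror.a ((M.mirror.f)^[2] (M.mirror.a ((M.f)^[3] e)))) =
          M.a ((M.f)^[1] e) := (M.a2 _).trans hq
      have e3 : M.a (M.mirror.a x) = x := M.a2 x
      rw [e1] at hx1
      rw [e2, e3] at hx2
      exact hcon i hi x hx1 hx2
  refine not_both hN e h5 h6 h6' hi hx1 hx2 (i' := 6 - i') (x' := M.a x') (by omega) hx1' ?_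
  rw [M.a2]
  exact hx2'

end

end Pool.Agent.Helper17.CT
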